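import Pool.Agent.Helper37.KF.Stmts
import Pool.Agent.Helper60.NF.Scale

/-!
# Komlos problem, module 5: integration over scales
-/

namespace Pool.Agent.Helper76.KF

open Finset MeasureTheory Filter Topology Pool.Agent.Helper37.KF
open Pool.Agent.Helper60.NF (AA AA_deriv AA_top AA_zero LB LB_deriv LB_top LB_zero)
open scoped Classical

noncomputable section

theorem ph_div (x h : ℝ) (hh : 0 < h) : ph (x / h) = x ^ 2 / (h ^ 2 + x ^ 2) := by
  unfold ph
  have h1 : 0 < h ^ 2 + x ^ 2 := by positivity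
  have h2 : 0 < 1 + (x / h) ^ 2 := by positivity
  rw [div_eq_div_iff h2.ne' h1.ne']
  field_simp

theorem ps_div (x h : ℝ) : ps (x / h) = Real.log (1 + x ^ 2 / h ^ 2) := by
  unfold ps
  rw [div_pow]

theorem st_scale : ST_SCALE := by
  intro I K L _ _ _ x β z w α γ H
  set Ψ : ℝ → ℝ := fun h => γ * ∑ l, AA (w l) h
    + ∑ j, β j * (LB (z j ^ 2) h + 2 * AA (z j) h) - α * ∑ i, AA (x i) h with hΨ
  have hder : ∀ h : ℝ, 0 < h → HasDerivAt Ψ
      (γ * ∑ l, (w l ^ 2 / (h ^ 2 + w l ^ 2)) + ∑ j, β j * Real.log (1 + z j ^ 2 / h ^ 2)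
        - α * ∑ i, (x i ^ 2 / (h ^ 2 + x i ^ 2))) h := by
    intro h hh
    have h1 : HasDerivAt (fun h => γ * ∑ l, AA (w l) h)
        (γ * ∑ l, (w l ^ 2 / (h ^ 2 + w l ^ 2))) h := by
      apply HasDerivAt.const_mul
      apply HasDerivAt.fun_sum
      intro v _
      exact AA_deriv (w v) h
    have h2 : HasDerivAt (fun h => α * ∑ i, AA (x i) h)
        (α * ∑ i, (x i ^ 2 / (h ^ 2 + x i ^ 2))) h := by
      apply HasDerivAt.const_mul
      apply HasDerivAt.fun_sum
      intro v _
      exact AA_deriv (x v) h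
    have h3 : HasDerivAt (fun h => ∑ j, β j * (LB (z j ^ 2) h + 2 * AA (z j) h))
        (∑ j, β j * Real.log (1 + z j ^ 2 / h ^ 2)) h := by
      apply HasDerivAt.fun_sum
      intro j _
      have h4 := (LB_deriv (z j ^ 2) h (sq_nonneg _) hh).add ((AA_deriv (z j) h).const_mul 2)
      have h5 : Real.log (1 + z j ^ 2 / h ^ 2) - 2 * (z j ^ 2 / (h ^ 2 + z j ^ 2))
          + 2 * (z j ^ 2 / (h ^ 2 + z j ^ 2)) = Real.log (1 + z j ^ 2 / h ^ 2) := by ring
      rw [h5] at h4
      exact h4.const_mul (β j)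
    exact (h1.add h3).sub h2
  have hmono : MonotoneOn Ψ (Set.Ioi 0) := by
    apply monotoneOn_of_deriv_nonneg (convex_Ioi 0)
    · intro h hh
      exact (hder h hh).continuousAt.continuousWithinAt
    · intro h hh
      rw [interior_Ioi] at hh
      exact (hder h hh).differentiableAt.differentiableWithinAt
    · intro h hh
      rw [interior_Ioi] at hh
      have hh' : 0 < h := hh
      rw [(hder h hh).deriv]
      have h1 := H h hh'
      simp only [ph_div _ _ hh', ps_div] at h1
      linarith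
  have htop : Tendsto Ψ atTop (𝓝 (γ * ∑ l, (|w l| * (Real.pi / 2))
      + ∑ j, β j * (0 + 2 * (|z j| * (Real.pi / 2)))
      - α * ∑ i, (|x i| * (Real.pi / 2)))) := by
    apply Tendsto.sub
    · apply Tendsto.add
      · apply Tendsto.const_mul
        apply tendsto_finset_sum
        intro v _
        exact AA_top (w v)
      · apply tendsto_finset_sum
        intro j _
        exact ((LB_top (z j ^ 2) (sq_nonneg _)).add ((AA_top (z j)).const_mul 2)).const_mul (β j)
    · apply Tendsto.const_mul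
      apply tendsto_finset_sum
      intro v _
      exact AA_top (x v)
  have hzero : Tendsto Ψ (𝓝[>] 0) (𝓝 (γ * ∑ l : L, (0 : ℝ)
      + ∑ j : K, β j * (0 + 2 * (0 : ℝ)) - α * ∑ i : I, (0 : ℝ))) := by
    apply Tendsto.sub
    · apply Tendsto.add
      · apply Tendsto.const_mul
        apply tendsto_finset_sum
        intro v _
        exact AA_zero (w v)
      · apply tendsto_finset_sum
        intro j _
        exact ((LB_zero (z j ^ 2) (sq_nonneg _)).add ((AA_zero (z j)).const_mul 2)).const_mul (β j)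
    · apply Tendsto.const_mul
      apply tendsto_finset_sum
      intro v _
      exact AA_zero (x v)
  have hlim : ∀ h : ℝ, 0 < h → Ψ h ≤ γ * ∑ l, (|w l| * (Real.pi / 2))
      + ∑ j, β j * (0 + 2 * (|z j| * (Real.pi / 2)))
      - α * ∑ i, (|x i| * (Real.pi / 2)) := by
    intro h hh
    apply ge_of_tendsto htop
    filter_upwards [eventually_ge_atTop h] with T hT
    exact hmono hh (lt_of_lt_of_le hh hT) hT
  have hfin := le_of_tendsto hzero (by
    filter_upwards [self_mem_nhdsWithin] with h hh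
    exact hlim h hh)
  simp only [mul_zero, Finset.sum_const_zero, add_zero, sub_zero, zero_add] at hfin
  have e1 : γ * ∑ l, (|w l| * (Real.pi / 2)) = Real.pi / 2 * (γ * ∑ l, |w l|) := by
    rw [← Finset.sum_mul]
    ring
  have e2 : α * ∑ i, (|x i| * (Real.pi / 2)) = Real.pi / 2 * (α * ∑ i, |x i|) := by
    rw [← Finset.sum_mul]
    ring
  have e3 : ∑ j, β j * (2 * (|z j| * (Real.pi / 2)))
      = Real.pi / 2 * (2 * ∑ j, β j * |z j|) := by
    rw [Finset.mul_sum, Finset.mul_sum]
    apply Finset.sum_congr rfl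
    intro v _
    ring
  rw [e1, e2, e3] at hfin
  have hpi : 0 < Real.pi / 2 := by positivity
  have h9 : 0 ≤ Real.pi / 2 * (γ * ∑ l, |w l| + 2 * ∑ j, β j * |z j| - α * ∑ i, |x i|) := by
    have : Real.pi / 2 * (γ * ∑ l, |w l| + 2 * ∑ j, β j * |z j| - α * ∑ i, |x i|)
        = Real.pi / 2 * (γ * ∑ l, |w l|) + Real.pi / 2 * (2 * ∑ j, β j * |z j|)
          - Real.pi / 2 * (α * ∑ i, |x i|) := by
      ring
    rw [this]
    exact hfin
  have h10 := nonneg_of_mul_nonneg_right h9 hpi
  linarith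

end

end Pool.Agent.Helper76.KF
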